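import Pool.Agent.H484.AL.Stm

/-!
# Project AL: first exceptional set
-/

set_option autoImplicit false

namespace Pool.Agent.H484.AL

open Finset
open scoped Classical

theorem exc1_geom {B : ℝ} (hB : 2 ≤ B) (n : ℕ) : ∑ t ∈ range n, B ^ t ≤ B ^ n := by
  induction n with
  | zero => simp
  | succ n ih =>
    rw [sum_range_succ, pow_succ]
    have : 0 ≤ B ^ n := by positivity
    nlinarith

theorem t_EXC1 (hCHEB : S_CHEB) : S_EXC1 := by
  intro e he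
  obtain ⟨C, hC, h⟩ := hCHEB e he
  refine ⟨C, hC, ?_⟩
  intro B g M a0 J t0 t1 α hreg h01 h1J
  have hB : (2 : ℝ) ≤ (B : ℝ) := by
    have h64 : 64 ≤ B := hreg.hB
    have : (64 : ℝ) ≤ (B : ℝ) := by exact_mod_cast h64
    linarith
  have hsub : (univ.filter (fun b : Fin e → Fin M => ∃ t : ℕ, t0 ≤ t ∧ t < t1 ∧
      (B : ℝ) ^ t * Mt e g M a0 B J α (fun i => (b i : ℕ)) t
        < (2 * (J : ℝ)) ^ e / 2 ^ (e + 2))) ⊆
      (Ico t0 t1).biUnion (fun t => univ.filter (fun b : Fin e → Fin M =>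
      (B : ℝ) ^ t * Mt e g M a0 B J α (fun i => (b i : ℕ)) t
        < (2 * (J : ℝ)) ^ e / 2 ^ (e + 2))) := by
    intro b hb
    obtain ⟨-, t, ht0, ht1, hb⟩ := mem_filter.1 hb
    exact mem_biUnion.2 ⟨t, mem_Ico.2 ⟨ht0, ht1⟩, mem_filter.2 ⟨mem_univ _, hb⟩⟩
  have hcard := (card_le_card hsub).trans card_biUnion_le
  have hcard' : ((univ.filter (fun b : Fin e → Fin M => ∃ t : ℕ, t0 ≤ t ∧ t < t1 ∧
      (B : ℝ) ^ t * Mt e g M a0 B J α (fun i => (b i : ℕ)) t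
        < (2 * (J : ℝ)) ^ e / 2 ^ (e + 2))).card : ℝ) ≤
      ∑ t ∈ Ico t0 t1, ((univ.filter (fun b : Fin e → Fin M =>
      (B : ℝ) ^ t * Mt e g M a0 B J α (fun i => (b i : ℕ)) t
        < (2 * (J : ℝ)) ^ e / 2 ^ (e + 2))).card : ℝ) := by
    exact_mod_cast hcard
  refine hcard'.trans ?_
  have h2 : ∀ t ∈ Ico t0 t1, ((univ.filter (fun b : Fin e → Fin M =>
      (B : ℝ) ^ t * Mt e g M a0 B J α (fun i => (b i : ℕ)) t
        < (2 * (J : ℝ)) ^ e / 2 ^ (e + 2))).card : ℝ) ≤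
      C * (1 / (B : ℝ) ^ J + (B : ℝ) ^ t / (J : ℝ) ^ e) * (M : ℝ) ^ e := by
    intro t ht
    rw [mem_Ico] at ht
    exact h B g M a0 J α hreg t (by omega)
  refine (sum_le_sum h2).trans ?_
  rw [← sum_mul, ← mul_sum, sum_add_distrib, sum_const, Nat.card_Ico, nsmul_eq_mul, ← sum_div,
    Nat.cast_sub h01]
  have h3 : ∑ t ∈ Ico t0 t1, (B : ℝ) ^ t ≤ (B : ℝ) ^ t1 := by
    refine le_trans ?_ (exc1_geom hB t1)
    refine sum_le_sum_of_subset_of_nonneg ?_ fun t _ _ => by positivity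
    intro t ht
    rw [mem_Ico] at ht
    exact mem_range.2 ht.2
  have h4 : 0 ≤ (J : ℝ) ^ e := by positivity
  have h5 : (∑ t ∈ Ico t0 t1, (B : ℝ) ^ t) / (J : ℝ) ^ e ≤ (B : ℝ) ^ t1 / (J : ℝ) ^ e :=
    div_le_div_of_nonneg_right h3 h4
  have h6 : 0 ≤ (M : ℝ) ^ e := by positivity
  refine mul_le_mul_of_nonneg_right ?_ h6
  refine mul_le_mul_of_nonneg_left ?_ hC.le
  have h7 : ((t1 : ℝ) - t0) * (1 / (B : ℝ) ^ J) = ((t1 : ℝ) - t0) / (B : ℝ) ^ J := by ring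
  rw [h7]
  linarith

end Pool.Agent.H484.AL
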