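import Pool.Agent.H484.AL.Stm

/-!
# Project AL: lower bound for the discrepancy by averaging
-/

set_option autoImplicit false

namespace Pool.Agent.H484.AL

open Finset
open scoped Classical

theorem riesz_prod (D N : ℕ) (f : Fin D → ℕ → ℝ) :
    ∑ m : Fin D → Fin N, ∏ i, f i (m i : ℕ) = ∏ i, ∑ x ∈ range N, f i x := by
  have h := Finset.prod_univ_sum (fun _ : Fin D => (univ : Finset (Fin N)))
    (fun i x => f i (x : ℕ))
  rw [Fintype.piFinset_univ] at h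
  rw [← h]
  refine Finset.prod_congr rfl fun i _ => ?_
  exact Fin.sum_univ_eq_sum_range (fun x => f i x) N

theorem t_RIESZ (hRM : S_RM) (hSM : S_SM) (hREST : S_REST) : S_RIESZ := by
  intro d R N a s hR hN hgood
  obtain ⟨K, hK, hs⟩ := hgood
  have hpi := Real.pi_pos
  have hpi3 := Real.pi_gt_three
  have hN0 : (0 : ℝ) < N := by exact_mod_cast hN
  have hP1 : (1 : ℝ) ≤ (2 * Real.pi) ^ (d + 1) := one_le_pow₀ (by linarith)
  have hR3 : 3 ≤ R := by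
    have : (3 : ℝ) ≤ (R : ℝ) := by linarith
    exact_mod_cast this
  have hne : ∀ k ∈ K, ∀ i, k i ≠ 0 := fun k hk i => ((hK.1 k hk).2 i).1
  obtain ⟨A, hA⟩ : ∃ A : ℝ, A = ∑ k ∈ K, ∏ i, (1 / |(k i : ℝ)|) := ⟨_, rfl⟩
  obtain ⟨E, hE⟩ : ∃ E : ℝ, E = ∑ J ∈ K.powerset.filter (fun J => 2 ≤ J.card),
      ∏ i, (1 / ((J.sup (fun k => (k i).natAbs) : ℕ) : ℝ)) := ⟨_, rfl⟩
  have hEA : E ≤ 1 / ((R : ℝ) - 2) * A := by
    rw [hE, hA]
    exact hREST d R K hR3 hne hK.2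
  have hA0 : 0 ≤ A := by
    rw [hA]
    exact Finset.sum_nonneg fun k _ => Finset.prod_nonneg fun i _ => by positivity
  -- summation over all shapes
  have h1 : ∑ m : Fin (d + 1) → Fin N, ∑ k ∈ K, (N : ℝ) * ∏ i, ‖SS N (m i : ℕ) (-(k i))‖ ≤
      ∑ _m : Fin (d + 1) → Fin N,
        ((N : ℝ) ^ (d + 1) * (2 ^ (d + 1) * ((N : ℝ) * Disc (d + 1) N a)) +
          (N : ℝ) ^ (d + 2) * E) := by
    refine Finset.sum_le_sum fun m _ => ?_
    have h := hRM d R N a (fun i => (m i : ℕ)) K hR3 hN hK (fun i => (m i).2.le)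
    rw [hE, Finset.mul_sum]
    exact h
  have h2 : ∑ m : Fin (d + 1) → Fin N, ∑ k ∈ K, (N : ℝ) * ∏ i, ‖SS N (m i : ℕ) (-(k i))‖ =
      ∑ k ∈ K, (N : ℝ) * ∏ i, ∑ x ∈ range N, ‖SS N x (-(k i))‖ := by
    rw [Finset.sum_comm]
    refine Finset.sum_congr rfl fun k _ => ?_
    rw [← Finset.mul_sum, riesz_prod (d + 1) N (fun i x => ‖SS N x (-(k i))‖)]
  have h3 : ∀ k ∈ K, (N : ℝ) * ((N : ℝ) ^ 2 / (2 * Real.pi)) ^ (d + 1) * ∏ i, (1 / |(k i : ℝ)|) ≤
      (N : ℝ) * ∏ i, ∑ x ∈ range N, ‖SS N x (-(k i))‖ := by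
    intro k hk
    rw [mul_assoc]
    refine mul_le_mul_of_nonneg_left ?_ hN0.le
    have e1 : ((N : ℝ) ^ 2 / (2 * Real.pi)) ^ (d + 1) * ∏ i, (1 / |(k i : ℝ)|) =
        ∏ i, ((N : ℝ) ^ 2 / (2 * Real.pi * |((-(k i) : ℤ) : ℝ)|)) := by
      have e2 : ((N : ℝ) ^ 2 / (2 * Real.pi)) ^ (d + 1) =
          ∏ _i : Fin (d + 1), ((N : ℝ) ^ 2 / (2 * Real.pi)) := by
        rw [Finset.prod_const, Finset.card_univ, Fintype.card_fin]
      rw [e2, ← Finset.prod_mul_distrib]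
      refine Finset.prod_congr rfl fun i _ => ?_
      push_cast
      rw [abs_neg]
      have : |(k i : ℝ)| ≠ 0 := abs_ne_zero.2 (by exact_mod_cast hne k hk i)
      field_simp
    rw [e1]
    refine Finset.prod_le_prod (fun i _ => by positivity) fun i _ => ?_
    have h8 := ((hK.1 k hk).2 i).2
    have h0 := abs_nonneg (k i)
    exact (hSM N (-(k i)) hN (neg_ne_zero.2 (hne k hk i)) (by rw [abs_neg]; linarith)).2
  have h4 : (N : ℝ) * ((N : ℝ) ^ 2 / (2 * Real.pi)) ^ (d + 1) * A ≤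
      ∑ k ∈ K, (N : ℝ) * ∏ i, ∑ x ∈ range N, ‖SS N x (-(k i))‖ := by
    rw [hA, Finset.mul_sum]
    exact Finset.sum_le_sum h3
  rw [h2, Finset.sum_const, Finset.card_univ, Fintype.card_fun, Fintype.card_fin, Fintype.card_fin,
    nsmul_eq_mul] at h1
  push_cast at h1
  have h5 := h4.trans h1
  obtain ⟨X, hX⟩ : ∃ X : ℝ, X = (N : ℝ) ^ (d + 1) := ⟨_, rfl⟩
  obtain ⟨P, hP⟩ : ∃ P : ℝ, P = (2 * Real.pi) ^ (d + 1) := ⟨_, rfl⟩
  have hX0 : 0 < X := by rw [hX]; positivity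
  have hP0 : 0 < P := by rw [hP]; positivity
  have e1 : ((N : ℝ) ^ 2 / (2 * Real.pi)) ^ (d + 1) = X ^ 2 / P := by
    rw [div_pow, hX, hP, ← pow_mul, ← pow_mul, mul_comm 2 (d + 1)]
  have e2 : (N : ℝ) ^ (d + 2) = X * N := by rw [hX]; ring
  rw [e1, e2, ← hX] at h5
  -- divide by `N X²`
  have h6 : A / P ≤ 2 ^ (d + 1) * Disc (d + 1) N a + E := by
    have hNX : 0 < (N : ℝ) * X ^ 2 := by positivity
    refine le_of_mul_le_mul_left ?_ hNX
    calc (N : ℝ) * X ^ 2 * (A / P) = (N : ℝ) * (X ^ 2 / P) * A := by ring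
      _ ≤ _ := h5
      _ = _ := by ring
  have h7 : 1 / ((R : ℝ) - 2) * A ≤ A / P / 2 := by
    rw [← hP] at hR
    have : 1 / ((R : ℝ) - 2) ≤ 1 / (2 * P) := by
      apply one_div_le_one_div_of_le (by positivity)
      linarith
    calc 1 / ((R : ℝ) - 2) * A ≤ 1 / (2 * P) * A := mul_le_mul_of_nonneg_right this hA0
      _ = A / P / 2 := by ring
  have h8 : A / P / 2 ≤ 2 ^ (d + 1) * Disc (d + 1) N a := by linarith
  have hwt : wt (d + 1) N K = N * A := by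
    unfold wt
    rw [hA, Finset.mul_sum]
    refine Finset.sum_congr rfl fun k _ => ?_
    rw [Finset.prod_div_distrib, Finset.prod_const_one]
    ring
  rw [hwt] at hs
  have e3 : (4 * Real.pi) ^ (d + 1) = 2 ^ (d + 1) * P := by
    rw [hP, ← mul_pow]
    congr 1
    ring
  rw [e3]
  have h2p : (0 : ℝ) < 2 ^ (d + 1) := by positivity
  calc 1 / 2 * (1 / (2 ^ (d + 1) * P)) * s ≤ 1 / 2 * (1 / (2 ^ (d + 1) * P)) * (N * A) := by
        gcongr
    _ = N / 2 ^ (d + 1) * (A / P / 2) := by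
        field_simp
    _ ≤ N / 2 ^ (d + 1) * (2 ^ (d + 1) * Disc (d + 1) N a) := by
        gcongr
    _ = N * Disc (d + 1) N a := by
        field_simp

end Pool.Agent.H484.AL
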